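import Pool.Agent.H34.WSG.Wig
import Pool.Agent.H34.WSG.Sharp
import Pool.Agent.H34.WSG.Low
import Pool.Agent.H34.WSG.Flip
import Pool.Agent.H34.WSG.Ext

/-!
MP_c789b2_co, Q1: the size of `μ_d`, the largest degree of an interior point of the Wang-Shi split
`WS_d`. Let `T x` be the largest number of divisors of a positive integer `≤ x`. Then
`T (d ^ 2) / (log₂ d) ^ 10 ≤ μ_d ≤ 6 T (d ^ 2)`; in particular
`log μ_d * log log d / log d → 2 log 2`, i.e. `μ_d = 4 ^ ((1 + o(1)) log d / log log d)`.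

Upper bound: the lines through an interior point joining two fixed sides correspond to lattice
points `(i, j)` with `(Z i - X) (Z' j - Y) = X Y` and `X / Z`, `Y / Z'` reduced. For two such points
the gcds of the first factors and of the second factors are both smaller than `d`, hence
(`singleton_bound`, as for the Singleton bound of coding theory) `u ↦ gcd (u, n₁)` is injective for
every divisor `n₁ ≥ d ^ 2` of `X Y`; so there are at most `2 τ(m)` such lattice points for some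
`m ≤ d ^ 2`.

Lower bound: for a smallest maximiser `n` of `τ` up to about `d ^ 2 / (log d) ^ 8` all exact prime
powers in `n` are `≤ (log₂ d) ^ 4 = M`; flipping the exponents of the primes of `n` one after the
other (`card_W`) shows that a proportion `1 / (ω(n) + 1)` of the divisors `e` of `n` satisfy
`n / M² ≤ e² ≤ M² n`; if `a b = n` is one such factorisation, then the point `(a / d, b / d)` lies
on the lines through the marked points `(a + e, 0)` and `(0, b + n / e)`.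
-/

namespace Pool.Agent.Results.MP_c789b2_co.DivisorMaximum

open Pool.Agent.Lib.helper25.WangShi Filter Topology
open H34.WSG (T)

/-- The triangle `A B C` is non-degenerate. -/
def NonDeg (A B C : ℝ × ℝ) : Prop := (B - A).1 * (C - A).2 - (B - A).2 * (C - A).1 ≠ 0

/-- The interior of the (non-degenerate) triangle `A B C`:
all points `A + s (B - A) + t (C - A)` with `s, t > 0` and `s + t < 1`. -/
def Interior (A B C : ℝ × ℝ) : Set (ℝ × ℝ) :=
  {p | ∃ s t : ℝ, 0 < s ∧ 0 < t ∧ s + t < 1 ∧ p = pt A B C s t}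

/-- The degree of the point `p`: the number of lines of the Wang-Shi split `WS_d` through `p`. -/
noncomputable def degree (A B C : ℝ × ℝ) (d : ℕ) (p : ℝ × ℝ) : ℕ∞ :=
  {l ∈ WS A B C d | p ∈ l}.encard

/-- `μ` is the largest degree of an interior point of the triangle `A B C` in `WS_d`. -/
def IsMu (A B C : ℝ × ℝ) (d μ : ℕ) : Prop :=
  IsGreatest {k : ℕ | ∃ p ∈ Interior A B C, degree A B C d p = (k : ℕ∞)} μ

lemma exists_mu {A B C : ℝ × ℝ} (hT : NonDeg A B C) {d : ℕ} (hd : 2 ≤ d) :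
    ∃ μ, IsMu A B C d μ := by
  have hb : ∀ p ∈ Interior A B C, degree A B C d p ≤ ((d + 1 : ℕ) : ℕ∞) := by
    rintro _ ⟨s, t, hs, ht, hst, rfl⟩
    exact_mod_cast main A B C hT d (by omega) s t hs ht hst
  have hbd : BddAbove {k : ℕ | ∃ p ∈ Interior A B C, degree A B C d p = (k : ℕ∞)} := by
    refine ⟨d + 1, ?_⟩
    rintro k ⟨p, hp, hk⟩
    have := hb p hp
    rw [hk] at this
    exact_mod_cast this
  have hne : {k : ℕ | ∃ p ∈ Interior A B C, degree A B C d p = (k : ℕ∞)}.Nonempty := by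
    have hp : pt A B C (1 / 3) (1 / 3) ∈ Interior A B C :=
      ⟨1 / 3, 1 / 3, by norm_num, by norm_num, by norm_num, rfl⟩
    have h1 := hb _ hp
    have h2 : degree A B C d (pt A B C (1 / 3) (1 / 3)) ≠ ⊤ := by
      intro h
      rw [h] at h1
      exact absurd h1 (by simp)
    obtain ⟨k, hk⟩ := ENat.ne_top_iff_exists.1 h2
    exact ⟨k, _, hp, hk.symm⟩
  exact ⟨_, Nat.sSup_mem hne hbd, fun k hk => le_csSup hbd hk⟩

lemma mu_le {A B C : ℝ × ℝ} (hT : NonDeg A B C) {d μ : ℕ} (hd : 2 ≤ d) (hμ : IsMu A B C d μ) :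
    ∃ m : ℕ, 1 ≤ m ∧ m ≤ d ^ 2 ∧ μ ≤ 6 * m.divisors.card := by
  obtain ⟨p, ⟨s, t, hs, ht, hst, rfl⟩, hk⟩ := hμ.1
  have hd0 : (0 : ℝ) < d := by exact_mod_cast (by omega : 0 < d)
  have h1 := H34.WSG.lines_le A B C hT d (by omega) s t hs ht hst
  have e1 : (0 : ℝ) < d * s := by positivity
  have e2 : (0 : ℝ) < d * t := by positivity
  have e3 : (0 : ℝ) < d * (1 - s - t) := mul_pos hd0 (by linarith)
  obtain ⟨n1, a1, b1, c1⟩ := H34.WSG.N_card_le2 hd e1 e2
  obtain ⟨n2, a2, b2, c2⟩ := H34.WSG.N_card_le2 hd e2 e3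
  obtain ⟨n3, a3, b3, c3⟩ := H34.WSG.N_card_le2 hd e3 e1
  have h2 : (μ : ℕ∞) ≤ (((N d (d * s) (d * t)).card + (N d (d * t) (d * (1 - s - t))).card +
        (N d (d * (1 - s - t)) (d * s)).card : ℕ) : ℕ∞) := by
    rw [← hk]; exact h1
  have h3 : μ ≤ (N d (d * s) (d * t)).card + (N d (d * t) (d * (1 - s - t))).card +
        (N d (d * (1 - s - t)) (d * s)).card := by exact_mod_cast h2
  rcases le_total n1.divisors.card n2.divisors.card with h | h <;>
    rcases le_total n2.divisors.card n3.divisors.card with h' | h' <;>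
    rcases le_total n1.divisors.card n3.divisors.card with h'' | h''
  · exact ⟨n3, a3, b3, by omega⟩
  · exact ⟨n3, a3, b3, by omega⟩
  · exact ⟨n2, a2, b2, by omega⟩
  · exact ⟨n2, a2, b2, by omega⟩
  · exact ⟨n3, a3, b3, by omega⟩
  · exact ⟨n1, a1, b1, by omega⟩
  · exact ⟨n1, a1, b1, by omega⟩
  · exact ⟨n1, a1, b1, by omega⟩

lemma mu_ge_ab {A B C : ℝ × ℝ} (hT : NonDeg A B C) {d μ : ℕ} (hd : 2 ≤ d) (hμ : IsMu A B C d μ)
    {a b : ℕ} (ha : 1 ≤ a) (hb : 1 ≤ b) (hab : a + b < d) (E : Finset ℕ)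
    (hE2 : ∀ e ∈ E, e ∣ a * b ∧ a + e < d ∧ b + a * b / e ≤ d) : E.card ≤ μ := by
  have hd0 : (0 : ℝ) < d := by exact_mod_cast (by omega : 0 < d)
  have ha0 : (0 : ℝ) < a := by exact_mod_cast ha
  have hb0 : (0 : ℝ) < b := by exact_mod_cast hb
  have hst : (a : ℝ) / d + (b : ℝ) / d < 1 := by
    rw [← add_div, div_lt_one hd0]
    exact_mod_cast hab
  have h1 := H34.WSG.lines_ge2 A B C hT d a b ha hb (by omega) E hE2
  have hfin : degree A B C d (pt A B C ((a : ℝ) / d) ((b : ℝ) / d)) ≠ ⊤ := by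
    intro h
    have h2 : degree A B C d (pt A B C ((a : ℝ) / d) ((b : ℝ) / d)) ≤ (d + 1 : ℕ∞) :=
      main A B C hT d (by omega) _ _ (by positivity) (by positivity) hst
    rw [h] at h2
    have h3 : ((d + 1 : ℕ) : ℕ∞) = ⊤ := by
      push_cast
      exact top_le_iff.1 h2
    exact absurd h3 (ENat.natCast_ne_top _)
  obtain ⟨l, hl⟩ := ENat.ne_top_iff_exists.1 hfin
  have h4 : l ≤ μ := hμ.2 ⟨_, ⟨_, _, by positivity, by positivity, hst, rfl⟩, hl.symm⟩
  have h5 : ((E.card : ℕ) : ℕ∞) ≤ (l : ℕ∞) := by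
    rw [hl]; exact h1
  have h6 : E.card ≤ l := by exact_mod_cast h5
  omega

lemma mu_ge {A B C : ℝ × ℝ} (hT : NonDeg A B C) {d μ : ℕ} (hd : 2 ≤ d) (hμ : IsMu A B C d μ)
    {k r : ℕ} (hk : 1 ≤ k) (hkr : 2 * k ^ r < d) (hr : 2 * r ≤ Nat.primeCounting k) :
    Nat.centralBinom r ≤ μ := by
  obtain ⟨a, b, ha, hb, hab, E, hE1, hE2⟩ := H34.WSG.exists_ab d k r hk hkr hr
  rw [← hE1]
  exact mu_ge_ab hT hd hμ ha hb hab E hE2

/-- the lower bound by the number of divisors of `n`. -/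
lemma mu_ge_tau {A B C : ℝ × ℝ} (hT : NonDeg A B C) {d μ : ℕ} (hd : 2 ≤ d) (hμ : IsMu A B C d μ)
    {n M : ℕ} (hn : 1 ≤ n) (hM1 : 1 ≤ M) (hM : ∀ p ∈ n.primeFactors, p ^ n.factorization p ≤ M)
    (hnd : 16 * M ^ 2 * n ≤ d ^ 2) : n.divisors.card ≤ (n.primeFactors.card + 1) * μ := by
  have h1 := H34.WSG.card_W (by omega : n ≠ 0) hM1 hM
  refine h1.trans (Nat.mul_le_mul_left _ ?_)
  have key : ∀ e ∈ H34.WSG.W n M, ∃ g, n = e * g ∧ 1 ≤ e ∧ 1 ≤ g ∧ 4 * e ≤ d ∧ 4 * g ≤ d := by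
    intro e he
    obtain ⟨he1, he2, he3⟩ := Finset.mem_filter.1 he
    obtain ⟨g, hg⟩ := (Nat.mem_divisors.1 he1).1
    have he0 : 1 ≤ e := Nat.pos_of_mem_divisors he1
    have hg0 : 1 ≤ g := by
      rcases Nat.eq_zero_or_pos g with h | h
      · rw [h] at hg; simp at hg; omega
      · exact h
    have hg2 : g ^ 2 ≤ M ^ 2 * n := by
      have : e ^ 2 * g ^ 2 ≤ e ^ 2 * (M ^ 2 * n) := by
        calc e ^ 2 * g ^ 2 = n * n := by rw [hg]; ring
          _ ≤ n * (M ^ 2 * e ^ 2) := Nat.mul_le_mul_left _ he3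
          _ = _ := by ring
      exact Nat.le_of_mul_le_mul_left this (pow_pos he0 2)
    refine ⟨g, hg, he0, hg0, ?_, ?_⟩
    · have : (4 * e) ^ 2 ≤ d ^ 2 := by
        calc (4 * e) ^ 2 = 16 * e ^ 2 := by ring
          _ ≤ 16 * (M ^ 2 * n) := Nat.mul_le_mul_left _ he2
          _ = 16 * M ^ 2 * n := by ring
          _ ≤ d ^ 2 := hnd
      exact (Nat.pow_le_pow_iff_left (by norm_num)).1 this
    · have : (4 * g) ^ 2 ≤ d ^ 2 := by
        calc (4 * g) ^ 2 = 16 * g ^ 2 := by ring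
          _ ≤ 16 * (M ^ 2 * n) := Nat.mul_le_mul_left _ hg2
          _ = 16 * M ^ 2 * n := by ring
          _ ≤ d ^ 2 := hnd
      exact (Nat.pow_le_pow_iff_left (by norm_num)).1 this
  rcases (H34.WSG.W n M).eq_empty_or_nonempty with h | ⟨a, ha⟩
  · rw [h]; simp
  obtain ⟨b, hab, ha0, hb0, ha4, hb4⟩ := key a ha
  apply mu_ge_ab hT hd hμ ha0 hb0 (by omega)
  intro e he
  obtain ⟨g, heg, he0, hg0, he4, hg4⟩ := key e he
  rw [← hab]
  refine ⟨⟨g, heg⟩, by omega, ?_⟩
  have : n / e = g := by rw [heg]; exact Nat.mul_div_cancel_left g he0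
  rw [this]
  omega

lemma four_mul_pow_le {l : ℕ} (hl : 130 ≤ l) : 4 * l ^ 4 ≤ 2 ^ l := by
  induction l, hl using Nat.le_induction with
  | base => norm_num
  | succ l hl ih =>
    have h1 : (l + 1) ^ 4 ≤ 2 * l ^ 4 := by
      have h2 : 6 * (l + 1) ≤ 7 * l := by omega
      have h3 : (6 * (l + 1)) ^ 4 ≤ (7 * l) ^ 4 := Nat.pow_le_pow_left h2 4
      have h4 : (6 * (l + 1)) ^ 4 = 1296 * (l + 1) ^ 4 := by ring
      have h5 : (7 * l) ^ 4 = 2401 * l ^ 4 := by ring
      rw [h4, h5] at h3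
      omega
    calc 4 * (l + 1) ^ 4 ≤ 4 * (2 * l ^ 4) := Nat.mul_le_mul_left _ h1
      _ = 2 * (4 * l ^ 4) := by ring
      _ ≤ 2 * 2 ^ l := Nat.mul_le_mul_left _ ih
      _ = 2 ^ (l + 1) := by ring

lemma primes_enough {l : ℕ} (hl : 130 ≤ l) : 2 * l + 1 < Nat.primeCounting (l ^ 2) := by
  have hpi := Chebyshev.pi_ge (l ^ 2)
  have hlR : (130 : ℝ) ≤ l := by exact_mod_cast hl
  have hl2 : (0.69 : ℝ) < Real.log 2 := by linarith [Real.log_two_gt_d9]
  have hl2' : Real.log 2 < 0.7 := by linarith [Real.log_two_lt_d9]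
  have hlog : 0 < Real.log l := Real.log_pos (by linarith)
  have h16 : Real.log l ≤ l / 16 - 1 + 4 * Real.log 2 := by
    have h1 : Real.log ((l : ℝ) / 16) ≤ l / 16 - 1 := Real.log_le_sub_one_of_pos (by positivity)
    rw [Real.log_div (by positivity) (by norm_num),
      show (16 : ℝ) = 2 ^ 4 by norm_num, Real.log_pow] at h1
    push_cast at h1
    norm_num at h1 ⊢
    linarith
  have h17 : Real.log ((l : ℝ) ^ 2 + 1) ≤ 2 * Real.log l + Real.log 2 := by
    rw [show 2 * Real.log (l : ℝ) = Real.log ((l : ℝ) ^ 2) by rw [Real.log_pow]; norm_num,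
      ← Real.log_mul (by positivity) (by norm_num)]
    apply Real.log_le_log (by positivity)
    nlinarith
  push_cast at hpi
  rw [Real.log_pow] at hpi
  push_cast at hpi
  have h18 : (2 * (l : ℝ) + 2) ≤ (((l : ℝ) ^ 2) * Real.log 2 - Real.log ((l : ℝ) ^ 2 + 1)) /
      (2 * Real.log l) := by
    rw [le_div_iff₀ (by linarith)]
    nlinarith
  have h19 := h18.trans hpi
  have h20 : 2 * l + 2 ≤ Nat.primeCounting (l ^ 2) := by exact_mod_cast h19
  omega

lemma lower_T {A B C : ℝ × ℝ} (hT : NonDeg A B C) {d μ : ℕ} (hd : 2 ^ 130 ≤ d)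
    (hμ : IsMu A B C d μ) : T (d ^ 2) ≤ (Nat.log 2 d) ^ 10 * μ := by
  obtain ⟨l, hl⟩ : ∃ l, l = Nat.log 2 d := ⟨_, rfl⟩
  have hd2 : 2 ≤ d := le_trans (by norm_num) hd
  have hl130 : 130 ≤ l := by rw [hl]; exact Nat.le_log_of_pow_le (by norm_num) hd
  have h2l : 2 ^ l ≤ d := by rw [hl]; exact Nat.pow_log_le_self 2 (by omega)
  have hd2l : d < 2 ^ (l + 1) := by rw [hl]; exact Nat.lt_pow_succ_log_self (by norm_num) d
  rw [← hl]
  have h16 : 16 * l ^ 8 ≤ d ^ 2 := by
    calc 16 * l ^ 8 = (4 * l ^ 4) ^ 2 := by ring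
      _ ≤ (2 ^ l) ^ 2 := Nat.pow_le_pow_left (four_mul_pow_le hl130) 2
      _ ≤ d ^ 2 := Nat.pow_le_pow_left h2l 2
  have hlpos : 0 < 16 * l ^ 8 := by positivity
  obtain ⟨z, hz⟩ : ∃ z, z = d ^ 2 / (16 * l ^ 8) := ⟨_, rfl⟩
  have hz1 : 1 ≤ z := by rw [hz]; exact Nat.div_pos h16 hlpos
  have hzd : 16 * l ^ 8 * z ≤ d ^ 2 := by rw [hz]; exact Nat.mul_div_le _ _
  have hzlt : d ^ 2 < 16 * l ^ 8 * (z + 1) := by rw [hz]; exact Nat.lt_mul_div_succ _ hlpos
  have hzx : z ≤ d ^ 2 := (Nat.le_mul_of_pos_left z hlpos).trans hzd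
  obtain ⟨n, hn1, hn2, hn3, hn4⟩ := H34.WSG.exists_min hz1
  have hlogn : Nat.log 2 n ≤ 2 * l + 1 := by
    have h1 : n < 2 ^ (2 * l + 2) := by
      calc n ≤ d ^ 2 := hn2.trans hzx
        _ < (2 ^ (l + 1)) ^ 2 := Nat.pow_lt_pow_left hd2l (by norm_num)
        _ = 2 ^ (2 * l + 2) := by rw [← pow_mul]; congr 1; ring
    have h2 := Nat.log_lt_of_lt_pow (by omega) h1
    omega
  obtain ⟨q, hq, hqB, hqn⟩ := H34.WSG.exists_missing hn1
    (lt_of_le_of_lt hlogn (primes_enough hl130))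
  have hpow : ∀ p ∈ n.primeFactors, p ^ n.factorization p ≤ l ^ 4 := by
    intro p hp
    calc p ^ n.factorization p ≤ q ^ 2 := H34.WSG.pow_le hn1 hn4 hq hqn p hp
      _ ≤ (l ^ 2) ^ 2 := Nat.pow_le_pow_left hqB 2
      _ = l ^ 4 := by ring
  have h3 := mu_ge_tau hT hd2 hμ hn1 (Nat.one_le_pow _ _ (by omega)) hpow (by
    calc 16 * (l ^ 4) ^ 2 * n = 16 * l ^ 8 * n := by ring
      _ ≤ 16 * l ^ 8 * z := Nat.mul_le_mul_left _ hn2
      _ ≤ d ^ 2 := hzd)
  have h4 : n.primeFactors.card + 1 ≤ 2 * l + 2 := by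
    have := H34.WSG.card_primeFactors_le hn1
    omega
  have h5 : T z ≤ (2 * l + 2) * μ := by
    rw [← hn3]
    exact h3.trans (Nat.mul_le_mul_right _ h4)
  have h6 : T (d ^ 2) * z ≤ 64 * l ^ 8 * T z * z := by
    calc T (d ^ 2) * z ≤ 2 * d ^ 2 * T z := H34.WSG.T_shrink hz1 hzx
      _ ≤ 2 * (16 * l ^ 8 * (2 * z)) * T z := by
        apply Nat.mul_le_mul_right
        apply Nat.mul_le_mul_left
        exact hzlt.le.trans (Nat.mul_le_mul_left _ (by omega))
      _ = 64 * l ^ 8 * T z * z := by ring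
  have h7 : T (d ^ 2) ≤ 64 * l ^ 8 * T z := Nat.le_of_mul_le_mul_right h6 hz1
  calc T (d ^ 2) ≤ 64 * l ^ 8 * T z := h7
    _ ≤ 64 * l ^ 8 * ((2 * l + 2) * μ) := Nat.mul_le_mul_left _ h5
    _ = l ^ 8 * (64 * (2 * l + 2)) * μ := by ring
    _ ≤ l ^ 8 * l ^ 2 * μ := by
      apply Nat.mul_le_mul_right
      apply Nat.mul_le_mul_left
      nlinarith
    _ = l ^ 10 * μ := by ring

lemma upper {ε : ℝ} (hε : 0 < ε) : ∃ Y : ℝ, ∀ A B C : ℝ × ℝ, NonDeg A B C → ∀ d μ : ℕ, 2 ≤ d →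
    Y ≤ Real.log d → IsMu A B C d μ →
    Real.log μ ≤ (2 * Real.log 2 + ε) * (Real.log d / Real.log (Real.log d)) := by
  obtain ⟨X0, hX0⟩ := H34.WSG.wigert (show 0 < ε / 4 by positivity)
  have hl6 : 0 < Real.log 6 := Real.log_pos (by norm_num)
  have h1 : ∀ᶠ y : ℝ in atTop, Real.log 6 ≤ (ε / 2) * (y / Real.log y) := by
    have := Real.isLittleO_log_id_atTop.bound (show (0 : ℝ) < ε / 2 / Real.log 6 by positivity)
    filter_upwards [this, eventually_gt_atTop (1 : ℝ)] with y hy hy1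
    have a1 : 0 < Real.log y := Real.log_pos hy1
    rw [Real.norm_of_nonneg a1.le, id, Real.norm_of_nonneg (by linarith : (0 : ℝ) ≤ y),
      div_mul_eq_mul_div, le_div_iff₀ hl6] at hy
    rw [mul_div_assoc', le_div_iff₀ a1]
    linarith
  obtain ⟨Y1, hY1⟩ := Filter.eventually_atTop.1 h1
  refine ⟨max (max Y1 X0) 2, ?_⟩
  intro A B C hT d μ hd hY hμ
  have q1 : Y1 ≤ Real.log d := ((le_max_left _ _).trans (le_max_left _ _)).trans hY
  have q2 : X0 ≤ Real.log d := ((le_max_right _ _).trans (le_max_left _ _)).trans hY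
  have q3 : 2 ≤ Real.log d := (le_max_right _ _).trans hY
  obtain ⟨y, hyd⟩ : ∃ y, y = Real.log d := ⟨_, rfl⟩
  rw [← hyd] at q1 q2 q3 ⊢
  have hlogy : 0 < Real.log y := Real.log_pos (by linarith)
  obtain ⟨n, hn1, hn2, hn3⟩ := mu_le hT hd hμ
  have hlogn : Real.log n ≤ 2 * y := by
    have h1 : Real.log n ≤ Real.log ((d : ℝ) ^ 2) := by
      apply Real.log_le_log (by exact_mod_cast hn1)
      exact_mod_cast hn2
    rw [Real.log_pow, ← hyd] at h1
    push_cast at h1
    exact h1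
  have hτ := hX0 (2 * y) (by linarith) n (by omega) hlogn
  have hτ1 : (1 : ℝ) ≤ n.divisors.card := by
    have : 0 < n.divisors.card := Finset.card_pos.2 ⟨1, Nat.one_mem_divisors.2 (by omega)⟩
    exact_mod_cast this
  have hμl : Real.log μ ≤ Real.log 6 + Real.log n.divisors.card := by
    rw [← Real.log_mul (by norm_num) (by linarith)]
    rcases Nat.eq_zero_or_pos μ with h0 | h0
    · rw [h0]
      simp only [Nat.cast_zero, Real.log_zero]
      exact Real.log_nonneg (by linarith)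
    · apply Real.log_le_log (by exact_mod_cast h0)
      exact_mod_cast hn3
  have hlog6 : Real.log y ≤ Real.log (2 * y) := Real.log_le_log (by linarith) (by linarith)
  have h6 : 2 * y / Real.log (2 * y) ≤ 2 * y / Real.log y :=
    div_le_div_of_nonneg_left (by linarith) hlogy hlog6
  have hl2 : 0 < Real.log 2 := Real.log_pos (by norm_num)
  have h7 : (Real.log 2 + ε / 4) * (2 * y / Real.log (2 * y)) ≤
      (Real.log 2 + ε / 4) * (2 * y / Real.log y) :=
    mul_le_mul_of_nonneg_left h6 (by positivity)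
  calc Real.log μ ≤ (ε / 2) * (y / Real.log y) + (Real.log 2 + ε / 4) * (2 * y / Real.log y) := by
        linarith [hY1 y q1]
    _ = (2 * Real.log 2 + ε) * (y / Real.log y) := by ring

lemma low_tendsto : Tendsto (fun y : ℝ => (2 * Real.log 2 * ((y - 1) / (Real.log y + Real.log 5) - 1)
    - (Real.log 2 + Real.log y)) * (Real.log y / y)) atTop (𝓝 (2 * Real.log 2)) := by
  have t1 : Tendsto (fun y : ℝ => 1 - 1 / y) atTop (𝓝 1) := by
    have : Tendsto (fun y : ℝ => 1 / y) atTop (𝓝 0) := tendsto_const_nhds.div_atTop tendsto_id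
    simpa using tendsto_const_nhds.sub this
  have t2 : Tendsto (fun y : ℝ => 1 - Real.log 5 / (Real.log y + Real.log 5)) atTop (𝓝 1) := by
    have h : Tendsto (fun y : ℝ => Real.log y + Real.log 5) atTop atTop :=
      tendsto_atTop_add_const_right _ _ Real.tendsto_log_atTop
    have : Tendsto (fun y : ℝ => Real.log 5 / (Real.log y + Real.log 5)) atTop (𝓝 0) :=
      tendsto_const_nhds.div_atTop h
    simpa using tendsto_const_nhds.sub this
  have t3 : Tendsto (fun y : ℝ => Real.log y / y) atTop (𝓝 0) :=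
    Real.isLittleO_log_id_atTop.tendsto_div_nhds_zero
  have t4 : Tendsto (fun y : ℝ => Real.log y ^ 2 / y) atTop (𝓝 0) :=
    Real.isLittleO_pow_log_id_atTop.tendsto_div_nhds_zero
  have t5 : Tendsto (fun y : ℝ => 2 * Real.log 2 * ((1 - 1 / y) *
      (1 - Real.log 5 / (Real.log y + Real.log 5)) - Real.log y / y) -
      (Real.log 2 * (Real.log y / y) + Real.log y ^ 2 / y)) atTop
      (𝓝 (2 * Real.log 2 * (1 * 1 - 0) - (Real.log 2 * 0 + 0))) :=
    (((t1.mul t2).sub t3).const_mul _).sub ((t3.const_mul _).add t4)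
  have e : 2 * Real.log 2 * (1 * 1 - 0) - (Real.log 2 * 0 + 0) = 2 * Real.log 2 := by ring
  rw [e] at t5
  refine t5.congr' ?_
  filter_upwards [eventually_gt_atTop (1 : ℝ)] with y hy
  have h1 : 0 < Real.log y := Real.log_pos hy
  have h2 : 0 < Real.log 5 := Real.log_pos (by norm_num)
  have h3 : Real.log y + Real.log 5 ≠ 0 := by positivity
  have h4 : y ≠ 0 := by linarith
  field_simp
  ring

lemma lower {ε : ℝ} (hε : 0 < ε) : ∃ Y : ℝ, ∀ A B C : ℝ × ℝ, NonDeg A B C → ∀ d μ : ℕ, 2 ≤ d →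
    Y ≤ Real.log d → IsMu A B C d μ →
    (2 * Real.log 2 - ε) * (Real.log d / Real.log (Real.log d)) ≤ Real.log μ := by
  have h1 : ∀ᶠ y : ℝ in atTop, 2 * Real.log 2 - ε < (2 * Real.log 2 *
      ((y - 1) / (Real.log y + Real.log 5) - 1) - (Real.log 2 + Real.log y)) * (Real.log y / y) :=
    low_tendsto.eventually_const_lt (by linarith)
  obtain ⟨Y1, hY1⟩ := Filter.eventually_atTop.1 h1
  refine ⟨max Y1 64, ?_⟩
  intro A B C hT d μ hd hY hμ
  have q1 : Y1 ≤ Real.log d := (le_max_left _ _).trans hY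
  have q3 : 64 ≤ Real.log d := (le_max_right _ _).trans hY
  obtain ⟨y, hyd⟩ : ∃ y, y = Real.log d := ⟨_, rfl⟩
  have hd0 : (0 : ℝ) < d := by exact_mod_cast (by omega : 0 < d)
  have hdy : (d : ℝ) = Real.exp y := by rw [hyd, Real.exp_log hd0]
  rw [← hyd] at q1 q3 ⊢
  have hlogy : 0 < Real.log y := Real.log_pos (by linarith)
  have hl2 : (0.69 : ℝ) < Real.log 2 := by linarith [Real.log_two_gt_d9]
  have hl2' : Real.log 2 < 0.7 := by linarith [Real.log_two_lt_d9]
  set k : ℕ := ⌊4 * y⌋₊ + 1 with hk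
  have hk1 : 4 * y < k := by
    have := Nat.lt_floor_add_one (4 * y)
    rw [hk]; push_cast; exact this
  have hk2 : (k : ℝ) ≤ 4 * y + 1 := by
    have := Nat.floor_le (show 0 ≤ 4 * y by linarith)
    rw [hk]; push_cast; linarith
  have hk5 : (k : ℝ) ≤ y * 5 := by linarith
  have hk256 : (256 : ℝ) < k := by linarith
  have hlk : 1 ≤ Real.log k := by
    have a1 : Real.log 4 ≤ Real.log k := Real.log_le_log (by norm_num) (by linarith)
    rw [show (4 : ℝ) = 2 ^ 2 by norm_num, Real.log_pow] at a1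
    push_cast at a1
    linarith
  have hlk5 : Real.log k ≤ Real.log y + Real.log 5 := by
    rw [← Real.log_mul (by linarith) (by norm_num)]
    exact Real.log_le_log (by linarith) hk5
  set r : ℕ := ⌊(y - 1) / Real.log k⌋₊ with hr
  have hr1 : (r : ℝ) ≤ (y - 1) / Real.log k := Nat.floor_le (by
    apply div_nonneg (by linarith) (by linarith))
  have hr2 : (y - 1) / Real.log k - 1 < r := Nat.sub_one_lt_floor _
  have hr1' : (r : ℝ) * Real.log k ≤ y - 1 := by
    rwa [le_div_iff₀ (by linarith)] at hr1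
  have hkr : 2 * k ^ r < d := by
    have a1 : ((k : ℝ) ^ r) ≤ Real.exp (y - 1) := by
      rw [← Real.log_le_iff_le_exp (by positivity), Real.log_pow]
      exact hr1'
    have a2 : 2 * Real.exp (y - 1) < Real.exp y := by
      have : Real.exp y = Real.exp (y - 1) * Real.exp 1 := by
        rw [← Real.exp_add]; congr 1; ring
      rw [this]
      have := Real.exp_one_gt_d9
      have := Real.exp_pos (y - 1)
      nlinarith
    have a3 : (2 : ℝ) * (k : ℝ) ^ r < d := by
      rw [hdy]; linarith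
    exact_mod_cast a3
  have hpi : ((k : ℝ) * Real.log 2 - Real.log (k + 1)) / Real.log k ≤
      (Nat.primeCounting k : ℝ) := Chebyshev.pi_ge k
  have hk1l : Real.log ((k : ℝ) + 1) ≤ (k + 1) / 8 - 1 + 3 * Real.log 2 := by
    have h1 : Real.log (((k : ℝ) + 1) / 8) ≤ (k + 1) / 8 - 1 :=
      Real.log_le_sub_one_of_pos (by positivity)
    rw [Real.log_div (by positivity) (by norm_num),
      show (8 : ℝ) = 2 ^ 3 by norm_num, Real.log_pow] at h1
    push_cast at h1
    norm_num at h1 ⊢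
    linarith
  have hrpi : 2 * r ≤ Nat.primeCounting k := by
    have a1 : (2 : ℝ) * r ≤ ((k : ℝ) * Real.log 2 - Real.log (k + 1)) / Real.log k := by
      rw [le_div_iff₀ (by linarith)]
      nlinarith
    have a2 := a1.trans hpi
    exact_mod_cast a2
  have hμ1 := mu_ge hT hd hμ (by omega) hkr hrpi
  -- r ≥ 1
  have hr3 : (y - 1) / (Real.log y + Real.log 5) - 1 ≤ r := by
    have a1 : (y - 1) / (Real.log y + Real.log 5) ≤ (y - 1) / Real.log k :=
      div_le_div_of_nonneg_left (by linarith) (by linarith) hlk5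
    linarith
  have hlog64 : Real.log y ≤ y / 64 - 1 + 6 * Real.log 2 := by
    have h1 : Real.log (y / 64) ≤ y / 64 - 1 := Real.log_le_sub_one_of_pos (by positivity)
    rw [Real.log_div (by positivity) (by norm_num),
      show (64 : ℝ) = 2 ^ 6 by norm_num, Real.log_pow] at h1
    push_cast at h1
    norm_num at h1 ⊢
    linarith
  have hlog5 : Real.log 5 ≤ 3 * Real.log 2 := by
    have : Real.log 5 ≤ Real.log (2 ^ 3) := Real.log_le_log (by norm_num) (by norm_num)
    rwa [Real.log_pow, Nat.cast_ofNat] at this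
  have hlog50 : 0 < Real.log 5 := Real.log_pos (by norm_num)
  have hrpos : 0 < r := by
    have a1 : 2 ≤ (y - 1) / (Real.log y + Real.log 5) := by
      rw [le_div_iff₀ (by linarith)]
      linarith
    have a2 : (0 : ℝ) < r := by linarith
    exact_mod_cast a2
  have hcb : Real.log 4 * r - Real.log (2 * r) ≤ Real.log μ := by
    have a1 := Nat.four_pow_le_two_mul_self_mul_centralBinom r hrpos
    have a2 : (4 : ℝ) ^ r ≤ 2 * r * μ := by
      have : 4 ^ r ≤ 2 * r * μ := a1.trans (Nat.mul_le_mul_left _ hμ1)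
      exact_mod_cast this
    have hμpos : 0 < μ := lt_of_lt_of_le (Nat.centralBinom_pos r) hμ1
    have hrR : (0 : ℝ) < r := by exact_mod_cast hrpos
    have hμR : (0 : ℝ) < μ := by exact_mod_cast hμpos
    have a3 := Real.log_le_log (by positivity) a2
    rw [Real.log_mul (by positivity) (by positivity), Real.log_pow] at a3
    linarith
  have hry : Real.log (2 * r) ≤ Real.log 2 + Real.log y := by
    have hrR : (0 : ℝ) < r := by exact_mod_cast hrpos
    rw [← Real.log_mul (by norm_num) (by linarith)]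
    apply Real.log_le_log (by positivity)
    nlinarith
  have hl4 : Real.log 4 = 2 * Real.log 2 := by
    rw [show (4 : ℝ) = 2 ^ 2 by norm_num, Real.log_pow]; norm_num
  rw [hl4] at hcb
  have hf : 2 * Real.log 2 * ((y - 1) / (Real.log y + Real.log 5) - 1) -
      (Real.log 2 + Real.log y) ≤ Real.log μ := by
    have := mul_le_mul_of_nonneg_left hr3 (show 0 ≤ 2 * Real.log 2 by linarith)
    linarith
  have hY1' := hY1 y q1
  have hyl : 0 < Real.log y / y := by positivity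
  have hfin : 2 * Real.log 2 - ε < Real.log μ * (Real.log y / y) :=
    lt_of_lt_of_le hY1' (mul_le_mul_of_nonneg_right hf hyl.le)
  have hyl2 : 0 < y / Real.log y := by positivity
  have e : Real.log μ * (Real.log y / y) * (y / Real.log y) = Real.log μ := by
    have : Real.log y ≠ 0 := hlogy.ne'
    have : y ≠ 0 := by linarith
    field_simp
  calc (2 * Real.log 2 - ε) * (y / Real.log y)
      ≤ (Real.log μ * (Real.log y / y)) * (y / Real.log y) :=
        mul_le_mul_of_nonneg_right hfin.le hyl2.le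
    _ = _ := e

/-- For every non-degenerate triangle the maximum `μ_d` exists for all `d ≥ 2`, it satisfies
`μ_d ≤ 6 T (d ^ 2)` for `d ≥ 2` and `T (d ^ 2) ≤ (log₂ d) ^ 10 μ_d` for `d ≥ 2 ^ 130`, and
`log μ_d * log log d / log d` tends to `2 log 2`. -/
theorem result :
    ∀ A B C : ℝ × ℝ, NonDeg A B C →
      ∃ μ : ℕ → ℕ, (∀ d : ℕ, 2 ≤ d → IsMu A B C d (μ d)) ∧
        (∀ d : ℕ, 2 ≤ d → μ d ≤ 6 * T (d ^ 2)) ∧
        (∀ d : ℕ, 2 ^ 130 ≤ d → T (d ^ 2) ≤ (Nat.log 2 d) ^ 10 * μ d) ∧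
        Tendsto (fun d : ℕ => Real.log (μ d) * Real.log (Real.log d) / Real.log d) atTop
          (𝓝 (2 * Real.log 2)) := by
  intro A B C hT
  have hex : ∀ d : ℕ, ∃ m : ℕ, 2 ≤ d → IsMu A B C d m := by
    intro d
    by_cases hd : 2 ≤ d
    · obtain ⟨m, hm⟩ := exists_mu hT hd
      exact ⟨m, fun _ => hm⟩
    · exact ⟨0, fun h => absurd h hd⟩
  choose μ hμ using hex
  refine ⟨μ, hμ, fun d hd => ?_, fun d hd => lower_T hT hd (hμ d (le_trans (by norm_num) hd)), ?_⟩
  · obtain ⟨m, hm1, hm2, hm3⟩ := mu_le hT hd (hμ d hd)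
    exact hm3.trans (Nat.mul_le_mul_left _ (H34.WSG.le_T hm1 hm2))
  rw [Metric.tendsto_atTop]
  intro ε hε
  obtain ⟨Y1, hY1⟩ := upper (show 0 < ε / 2 by positivity)
  obtain ⟨Y2, hY2⟩ := lower (show 0 < ε / 2 by positivity)
  obtain ⟨D, hD⟩ := Filter.eventually_atTop.1
    ((Real.tendsto_log_atTop.comp tendsto_natCast_atTop_atTop).eventually_ge_atTop
      (max (max Y1 Y2) 2))
  refine ⟨max D 2, ?_⟩
  intro d hd
  have hd2 : 2 ≤ d := (le_max_right _ _).trans hd
  have h0 := hD d ((le_max_left _ _).trans hd)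
  simp only [Function.comp_apply] at h0
  have q1 : Y1 ≤ Real.log d := ((le_max_left _ _).trans (le_max_left _ _)).trans h0
  have q2 : Y2 ≤ Real.log d := ((le_max_right _ _).trans (le_max_left _ _)).trans h0
  have q3 : 2 ≤ Real.log d := (le_max_right _ _).trans h0
  have u := hY1 A B C hT d (μ d) hd2 q1 (hμ d hd2)
  have l := hY2 A B C hT d (μ d) hd2 q2 (hμ d hd2)
  have hy : 0 < Real.log d := by linarith
  have hly : 0 < Real.log (Real.log d) := Real.log_pos (by linarith)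
  rw [mul_div_assoc', le_div_iff₀ hly] at u
  rw [mul_div_assoc', div_le_iff₀ hly] at l
  rw [Real.dist_eq, abs_lt]
  constructor
  · have : 2 * Real.log 2 - ε / 2 ≤ Real.log (μ d) * Real.log (Real.log d) / Real.log d := by
      rw [le_div_iff₀ hy]; exact l
    linarith
  · have : Real.log (μ d) * Real.log (Real.log d) / Real.log d ≤ 2 * Real.log 2 + ε / 2 := by
      rw [div_le_iff₀ hy]; exact u
    linarith

end Pool.Agent.Results.MP_c789b2_co.DivisorMaximum
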